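import Pool.Agent.H616Z.Coarse.Space

set_option autoImplicit false

namespace Pool.Agent.Results.MP_2695c4_gt.Counterexample

open Pool.Agent.H616Z.Coarse

universe u

/-- There are uniformly locally finite metric spaces `X`, `Y` and a uniformly finite-to-one coarse
map `X → Y` such that `Y` coarsely embeds into a Hilbert space and `X` does not. -/
theorem result : ∃ (X Y : Type) (_ : MetricSpace X) (_ : MetricSpace Y) (f : X → Y),
    ULF X ∧ ULF Y ∧ IsCoarseMap f ∧ UnifFiniteToOne f ∧ CoarselyEmbeds.{0} Y ∧
      ¬ CoarselyEmbeds.{u} X :=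
  main

end Pool.Agent.Results.MP_2695c4_gt.Counterexample
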